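import Pool.Agent.P.MP_456758_an.Final

/-!
Two minimal homeomorphisms of infinite compact metric spaces whose crossed products have the same
Elliott invariant and the same (finite, nonzero) radius of comparison but are not isomorphic.
-/

namespace Pool.Agent.Results.MP_456758_an.SameEllRc

open Pool.Agent.P.MP_456758_an

theorem result : ∃ (X₁ X₂ : Type) (_ : MetricSpace X₁) (_ : MetricSpace X₂) (_ : CompactSpace X₁)
    (_ : CompactSpace X₂) (T₁ : X₁ ≃ₜ X₁) (T₂ : X₂ ≃ₜ X₂) (A₁ A₂ : Type) (_ : CStarAlgebra A₁)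
    (_ : PartialOrder A₁) (_ : StarOrderedRing A₁) (_ : CStarAlgebra A₂) (_ : PartialOrder A₂)
    (_ : StarOrderedRing A₂), Infinite X₁ ∧ Infinite X₂ ∧
    (∀ x, DenseRange fun n : ℤ => (T₁ ^ n) x) ∧ (∀ x, DenseRange fun n : ℤ => (T₂ ^ n) x) ∧
    IsCrossedProduct T₁ A₁ ∧ IsCrossedProduct T₂ A₂ ∧ SameEll A₁ A₂ ∧ rc A₁ = rc A₂ ∧
    0 < rc A₁ ∧ rc A₁ < ⊤ ∧ IsEmpty (A₁ ≃⋆ₐ[ℂ] A₂) := by
  have h₁ := (cpReg (TT S1 True)).rc_eq (u := (1 / 4, 1 / 4)) (δ := 1 / 4) (by norm_num)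
    fun v hv => ⟨⟨(box_mem v hv).1.1, (box_mem v hv).1.2.trans (by norm_num)⟩, (box_mem v hv).2⟩
  have h₂ := (cpReg (TT S2 True)).rc_eq (u := (1 / 4, 1 / 4)) (δ := 1 / 4) (by norm_num)
    fun v hv => .inl (box_mem v hv)
  obtain ⟨γ, hγ⟩ := exists_gamma (cpReg (TT S1 True)) (cpReg (TT S2 True))
  refine ⟨Sys S1 True, Sys S2 True, TopologicalSpace.metrizableSpaceMetric _,
    TopologicalSpace.metrizableSpaceMetric _, inferInstance, inferInstance, TT S1 True, TT S2 True,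
    CP (TT S1 True), CP (TT S2 True), inferInstance, inferInstance, inferInstance, inferInstance,
    inferInstance, inferInstance, inferInstance, inferInstance, minimal, minimal,
    isCrossedProduct _, isCrossedProduct _, sameEll_of (adr S1) (adr S2) γ hγ, h₁.trans h₂.symm,
    h₁ ▸ ENNReal.ofReal_pos.2 (by linarith [half_le_rho]), h₁ ▸ ENNReal.ofReal_lt_top,
    ⟨fun φ => not_PP (cpReg _) (PP.map φ.symm.toStarAlgHom φ.toStarAlgHom φ.apply_symm_apply
      φ.symm_apply_apply (is_PP (cpReg _)))⟩⟩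

end Pool.Agent.Results.MP_456758_an.SameEllRc
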